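import Mathlib

/-!
# Subspaces of functions on the embeddings of a number field
-/

set_option autoImplicit false

open NumberField Module

namespace Q112ZG

variable {F : Type} [Field F]

/-- The infinite places `w` which give the embeddings `σ_1, …, σ_{d_n}`: all of them for `n` odd, the
complex ones for `n` even. The embedding which belongs to `w` is `w.embedding`. -/
abbrev Idx (n : ℕ) (F : Type) [Field F] : Type := {w : InfinitePlace F // Odd n ∨ w.IsComplex}

noncomputable instance (n : ℕ) (F : Type) [Field F] [NumberField F] : Fintype (Idx n F) :=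
  Fintype.ofFinite _

noncomputable instance (n : ℕ) (F : Type) [Field F] : DecidableEq (Idx n F) := Classical.decEq _

/-- The functions `x` on the set of the embeddings of `F` in `ℂ` with
`x(conjugate of σ) = (-1)^{n-1} x(σ)`. -/
def Parity (n : ℕ) {F : Type} [Field F] (x : (F →+* ℂ) → ℝ) : Prop :=
  ∀ σ, x (ComplexEmbedding.conjugate σ) = (-1) ^ (n - 1) * x σ

/-- The real vector space of these functions. -/
def par (n : ℕ) (F : Type) [Field F] : Submodule ℝ ((F →+* ℂ) → ℝ) where
  carrier := {x | Parity n x}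
  zero_mem' := fun σ => by simp
  add_mem' := fun {x y} hx hy σ => by
    show x _ + y _ = _ * (x σ + y σ)
    rw [hx σ, hy σ, mul_add]
  smul_mem' := fun c x hx σ => by
    show c * x _ = _ * (c * x σ)
    rw [hx σ]
    ring

lemma eq_zero_of_par {n : ℕ} (hn : 1 ≤ n) {x : (F →+* ℂ) → ℝ} (hx : x ∈ par n F)
    (h : ∀ j : Idx n F, x j.1.embedding = 0) : x = 0 := by
  funext σ
  by_cases hj : Odd n ∨ (InfinitePlace.mk σ).IsComplex
  · have h1 := h ⟨InfinitePlace.mk σ, hj⟩
    rcases InfinitePlace.embedding_mk_eq σ with h2 | h2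
    · rw [← h2]
      exact h1
    · have h3 := hx σ
      have h4 : x (ComplexEmbedding.conjugate σ) = 0 := by
        rw [← h2]
        exact h1
      rw [h4] at h3
      have h5 : ((-1 : ℝ) ^ (n - 1)) ≠ 0 := pow_ne_zero _ (by norm_num)
      have h6 := (mul_eq_zero.1 h3.symm).resolve_left h5
      exact h6
  · push Not at hj
    have hreal : ComplexEmbedding.IsReal σ := by
      have h1 := InfinitePlace.not_isComplex_iff_isReal.1 hj.2
      exact InfinitePlace.isReal_mk_iff.1 h1 
    have h2 := hx σ
    rw [ComplexEmbedding.isReal_iff.1 hreal] at h2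
    have h3 : Odd (n - 1) := by
      have h4 : Even n := Nat.not_odd_iff_even.1 hj.1
      exact Nat.Even.sub_odd hn h4 odd_one
    rw [h3.neg_one_pow] at h2
    show x σ = 0
    linarith

variable [NumberField F]

lemma linearIndependent_of_det {n : ℕ} {b : Idx n F → (F →+* ℂ) → ℝ}
    (hdet : (Matrix.of fun i j : Idx n F => b i j.1.embedding).det ≠ 0) :
    LinearIndependent ℝ b := by
  have h1 := Matrix.linearIndependent_rows_of_det_ne_zero hdet
  refine LinearIndependent.of_comp
    (LinearMap.funLeft ℝ ℝ (fun j : Idx n F => j.1.embedding)) ?_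
  exact h1

lemma mem_span_of_par {n : ℕ} (hn : 1 ≤ n) {b : Idx n F → (F →+* ℂ) → ℝ}
    (hb : ∀ i, b i ∈ par n F)
    (hdet : (Matrix.of fun i j : Idx n F => b i j.1.embedding).det ≠ 0)
    {x : (F →+* ℂ) → ℝ} (hx : x ∈ par n F) : x ∈ Submodule.span ℝ (Set.range b) := by
  set A : Matrix (Idx n F) (Idx n F) ℝ := Matrix.of fun i j : Idx n F => b i j.1.embedding with hA
  set v : Idx n F → ℝ := fun j => x j.1.embedding with hv
  set c : Idx n F → ℝ := Matrix.vecMul v A⁻¹ with hc
  have hunit : IsUnit A.det := isUnit_iff_ne_zero.2 hdet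
  have h1 : Matrix.vecMul c A = v := by
    rw [hc, Matrix.vecMul_vecMul, Matrix.nonsing_inv_mul _ hunit, Matrix.vecMul_one]
  have h2 : x - ∑ i, c i • b i = 0 := by
    refine eq_zero_of_par hn (Submodule.sub_mem _ hx
      (Submodule.sum_mem _ fun i _ => Submodule.smul_mem _ _ (hb i))) fun j => ?_
    have h3 := congrFun h1 j
    simp only [Matrix.vecMul, dotProduct] at h3
    simp only [Pi.sub_apply, Finset.sum_apply, Pi.smul_apply, smul_eq_mul]
    rw [sub_eq_zero]
    exact h3.symm
  rw [sub_eq_zero.1 h2]
  exact Submodule.sum_mem _ fun i _ => Submodule.smul_mem _ _ (Submodule.subset_span ⟨i, rfl⟩)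

/-- A rational subspace `P` of a rational subspace `R` spanned by `d` elements is equal to `R`
if the real span of `P` contains `d` vectors which are linearly independent over `ℝ`. -/
lemma eq_of_linearIndependent {n : ℕ} {P R : Submodule ℚ ((F →+* ℂ) → ℝ)} (hPR : P ≤ R)
    {b : Idx n F → (F →+* ℂ) → ℝ} (hb : R = Submodule.span ℚ (Set.range b))
    {y : Idx n F → (F →+* ℂ) → ℝ} (hy : LinearIndependent ℝ y)
    (hyP : ∀ i, y i ∈ Submodule.span ℝ (P : Set ((F →+* ℂ) → ℝ))) : P = R := by
  have : FiniteDimensional ℚ R := by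
    rw [hb]
    exact FiniteDimensional.span_of_finite ℚ (Set.finite_range b)
  have : FiniteDimensional ℚ P := Submodule.finiteDimensional_of_le hPR
  refine Submodule.eq_of_le_of_finrank_le hPR ?_
  have hR : finrank ℚ R ≤ Fintype.card (Idx n F) := by
    rw [hb]
    exact finrank_range_le_card (R := ℚ) b
  refine hR.trans ?_
  let v := finBasis ℚ P
  let w : Fin (finrank ℚ P) → (F →+* ℂ) → ℝ := fun i => (v i : (F →+* ℂ) → ℝ)
  have h1 : (P : Set ((F →+* ℂ) → ℝ)) = Submodule.span ℚ (Set.range w) := by
    have h2 : Submodule.span ℚ (Set.range w) = P := by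
      have h3 : Set.range w = P.subtype '' Set.range v := by
        rw [← Set.range_comp]
        rfl
      rw [h3, Submodule.span_image, v.span_eq, Submodule.map_top, Submodule.range_subtype]
    rw [h2]
  have h4 : Submodule.span ℝ (P : Set ((F →+* ℂ) → ℝ)) = Submodule.span ℝ (Set.range w) := by
    rw [h1]
    exact Submodule.span_span_of_tower ℚ ℝ _
  have h5 : Submodule.span ℝ (Set.range y) ≤ Submodule.span ℝ (Set.range w) := by
    rw [Submodule.span_le]
    rintro _ ⟨i, rfl⟩
    rw [← h4]
    exact hyP i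
  have h6 := Submodule.finrank_mono h5
  rw [finrank_span_eq_card hy] at h6
  have h7 := finrank_range_le_card (R := ℝ) w
  rw [Fintype.card_fin] at h7
  exact h6.trans h7

end Q112ZG
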