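import Mathlib
import Pool.Agent.Q112.ZG.Core

/-!
# Zagier's conjecture and subfields
-/

set_option autoImplicit false

open NumberField Module

namespace Q112ZG

/-- The formula `ζ_F(n) = q π^{n d_{n-1}} |d_F|^{-1/2} det(y_i(σ_j))` for some `q` in `ℚ^*`. -/
def ZetaFormula (n : ℕ) (F : Type) [Field F] [NumberField F] (y : Idx n F → (F →+* ℂ) → ℝ) : Prop :=
  ∃ q : ℚ, q ≠ 0 ∧ dedekindZeta F n = ((q * Real.pi ^ (n * Fintype.card (Idx (n - 1) F)) *
      |(discr F : ℝ)| ^ (-(1 / 2) : ℝ) *
      (Matrix.of fun i j : Idx n F => y i j.1.embedding).det : ℝ) : ℂ)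

/-- Q1 for `n` and `F`; `P` is the space of the vectors of polylogarithms. -/
def Zagier (n : ℕ) (F : Type) [Field F] [NumberField F] (P : Submodule ℚ ((F →+* ℂ) → ℝ)) : Prop :=
  ∃ y : Idx n F → (F →+* ℂ) → ℝ, (∀ i, y i ∈ P) ∧ ZetaFormula n F y

/-- Borel's theorem: the space `R` of the regulators has a basis `b` with the formula for
`ζ_F(n)`. -/
def Borel (n : ℕ) (F : Type) [Field F] [NumberField F] (R : Submodule ℚ ((F →+* ℂ) → ℝ)) : Prop :=
  (∀ x ∈ R, Parity n x) ∧
  ∃ b : Idx n F → (F →+* ℂ) → ℝ, R = Submodule.span ℚ (Set.range b) ∧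
    (Matrix.of fun i j : Idx n F => b i j.1.embedding).det ≠ 0 ∧ ZetaFormula n F b

lemma pi_disc_ne_zero (n : ℕ) (F : Type) [Field F] [NumberField F] :
    Real.pi ^ (n * Fintype.card (Idx (n - 1) F)) * |(discr F : ℝ)| ^ (-(1 / 2) : ℝ) ≠ 0 := by
  refine mul_ne_zero (pow_ne_zero _ Real.pi_ne_zero) ?_
  have h1 : (0 : ℝ) < |(discr F : ℝ)| := abs_pos.2 (by exact_mod_cast discr_ne_zero F)
  exact (Real.rpow_pos_of_pos h1 _).ne'

/-- Q1 for `F` says that the polylogarithms give all regulators. -/
theorem eq_of_zagier {n : ℕ} {F : Type} [Field F] [NumberField F]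
    {P R : Submodule ℚ ((F →+* ℂ) → ℝ)} (hPR : P ≤ R) (hR : Borel n F R) (hP : Zagier n F P) :
    P = R := by
  obtain ⟨y, hy, q, hq, hz⟩ := hP
  obtain ⟨-, b, hbR, hb, q', hq', hz'⟩ := hR
  have hdet : (Matrix.of fun i j : Idx n F => y i j.1.embedding).det ≠ 0 := by
    intro h0
    rw [h0, mul_zero, Complex.ofReal_zero] at hz
    rw [hz] at hz'
    have h1 := Complex.ofReal_eq_zero.1 hz'.symm
    have h2 := pi_disc_ne_zero n F
    rw [mul_assoc (q' : ℝ)] at h1
    rcases mul_eq_zero.1 h1 with h3 | h3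
    · rcases mul_eq_zero.1 h3 with h4 | h4
      · exact hq' (by exact_mod_cast h4)
      · exact h2 h4
    · exact hb h3
  exact eq_of_linearIndependent hPR hbR (linearIndependent_of_det hdet)
    fun i => Submodule.subset_span (hy i)

/-- The restriction of functions along a homomorphism of fields. -/
def pull {E F : Type} [Field E] [Field F] (τ : E →+* F) (x : (E →+* ℂ) → ℝ) : (F →+* ℂ) → ℝ :=
  fun σ => x (σ.comp τ)

theorem spanning {n : ℕ} (hn : 1 ≤ n)
    {P R : ∀ (F : Type) [Field F] [NumberField F], Submodule ℚ ((F →+* ℂ) → ℝ)}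
    (hPR : ∀ (F : Type) [Field F] [NumberField F], P F ≤ R F)
    (hR : ∀ (F : Type) [Field F] [NumberField F], Borel n F (R F))
    (hfun : ∀ (E F : Type) [Field E] [NumberField E] [Field F] [NumberField F] (τ : E →+* F),
      ∀ x ∈ P E, pull τ x ∈ P F)
    {F : Type} [Field F] [NumberField F] {ι : Type} (E : ι → Type) [∀ i, Field (E i)]
    [∀ i, NumberField (E i)] (τ : ∀ i, E i →+* F) (hE : ∀ i, Zagier n (E i) (P (E i)))
    (hspan : ∀ x ∈ par n F, x ∈ Submodule.span ℝ {z | ∃ i, ∃ x' ∈ par n (E i), z = pull (τ i) x'}) :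
    Zagier n F (P F) := by
  obtain ⟨hpar, b, hbR, hb, hz⟩ := hR F
  have hbmem : ∀ i, b i ∈ R F := fun i => by
    rw [hbR]
    exact Submodule.subset_span ⟨i, rfl⟩
  have key : P F = R F := by
    refine eq_of_linearIndependent (hPR F) hbR (linearIndependent_of_det hb) fun i => ?_
    have h1 := hspan (b i) (hpar _ (hbmem i))
    refine Submodule.span_le.2 ?_ h1
    rintro _ ⟨i, x', hx', rfl⟩
    have hEi : P (E i) = R (E i) := eq_of_zagier (hPR _) (hR _) (hE i)
    obtain ⟨hpar', b', hbR', hb', -⟩ := hR (E i)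
    have hbmem' : ∀ j, b' j ∈ R (E i) := fun j => by
      rw [hbR']
      exact Submodule.subset_span ⟨j, rfl⟩
    have h2 := mem_span_of_par hn (b := b') (fun j => hpar' _ (hbmem' j)) hb' hx'
    let f : ((E i →+* ℂ) → ℝ) →ₗ[ℝ] ((F →+* ℂ) → ℝ) :=
      LinearMap.funLeft ℝ ℝ (fun σ : F →+* ℂ => σ.comp (τ i))
    have h3 : f x' ∈ Submodule.map f (Submodule.span ℝ (Set.range b')) :=
      Submodule.mem_map_of_mem h2
    rw [Submodule.map_span] at h3
    refine Submodule.span_mono ?_ h3
    rintro _ ⟨_, ⟨j, rfl⟩, rfl⟩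
    exact hfun _ _ (τ i) _ (by rw [hEi]; exact hbmem' j)
  refine ⟨b, fun i => ?_, hz⟩
  rw [key]
  exact hbmem i

/-! ### Reduction to primitive fields -/

instance numberField_subfield {F : Type} [Field F] [NumberField F] (E : Subfield F) :
    NumberField E where
  to_charZero := inferInstance
  to_finiteDimensional := by
    let f : E →ₗ[ℚ] F := (E.subtype.toRatAlgHom).toLinearMap
    exact FiniteDimensional.of_injective f (fun x y h => Subtype.ext h)

lemma finrank_lt {F : Type} [Field F] [NumberField F] {E : Subfield F} (hE : E ≠ ⊤) :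
    finrank ℚ E < finrank ℚ F := by
  have := numberField_subfield E
  let f : E →ₗ[ℚ] F := (E.subtype.toRatAlgHom).toLinearMap
  have hf : Function.Injective f := fun x y h => Subtype.ext h
  refine lt_of_le_of_ne (LinearMap.finrank_le_finrank_of_injective hf) fun h => hE ?_
  have h1 := (LinearMap.injective_iff_surjective_of_finrank_eq_finrank h).1 hf
  refine eq_top_iff.2 fun x _ => ?_
  obtain ⟨y, hy⟩ := h1 x
  rw [← hy]
  exact y.2

/-- `F` is `n`-primitive: the functions `x` on the embeddings of `F` with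
`x(conjugate of σ) = (-1)^{n-1} x(σ)` are not all sums of functions of this kind which come from
proper subfields. -/
def Primitive (n : ℕ) (F : Type) [Field F] : Prop :=
  ¬ ∀ x : (F →+* ℂ) → ℝ, Parity n x → x ∈ Submodule.span ℝ {z | ∃ E : Subfield F, E ≠ ⊤ ∧
    ∃ x' : (E →+* ℂ) → ℝ, Parity n x' ∧ z = pull E.subtype x'}

theorem reduction {n : ℕ} (hn : 1 ≤ n)
    {P R : ∀ (F : Type) [Field F] [NumberField F], Submodule ℚ ((F →+* ℂ) → ℝ)}
    (hPR : ∀ (F : Type) [Field F] [NumberField F], P F ≤ R F)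
    (hR : ∀ (F : Type) [Field F] [NumberField F], Borel n F (R F))
    (hfun : ∀ (E F : Type) [Field E] [NumberField E] [Field F] [NumberField F] (τ : E →+* F),
      ∀ x ∈ P E, pull τ x ∈ P F)
    (h : ∀ (F : Type) [Field F] [NumberField F], Primitive n F → Zagier n F (P F))
    (F : Type) [Field F] [NumberField F] : Zagier n F (P F) := by
  have key : ∀ (d : ℕ) (F : Type) [Field F] [NumberField F], finrank ℚ F ≤ d →
      Zagier n F (P F) := by
    intro d
    induction d with
    | zero =>
        intro F _ _ hd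
        have := finrank_pos (R := ℚ) (M := F)
        omega
    | succ d ih =>
        intro F _ _ hd
        by_cases hp : Primitive n F
        · exact h F hp
        · unfold Primitive at hp
          rw [not_not] at hp
          have hinst : ∀ i : {E : Subfield F // E ≠ ⊤}, NumberField i.1 :=
            fun i => numberField_subfield i.1
          refine spanning hn hPR hR hfun (fun i : {E : Subfield F // E ≠ ⊤} => (i.1 : Type))
            (fun i => i.1.subtype) (fun i => ih _ ?_) ?_
          · have := finrank_lt i.2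
            omega
          · intro x hx
            refine Submodule.span_mono ?_ (hp x hx)
            rintro z ⟨E, hE, x', hx', rfl⟩
            exact ⟨⟨E, hE⟩, x', hx', rfl⟩
  exact key _ F le_rfl

/-! ### Fields with complex conjugations -/

/-- The subfield of the elements `x` with `σ x` real. -/
def realSub {F : Type} [Field F] (σ : F →+* ℂ) : Subfield F :=
  ((starRingEnd ℂ).comp σ).eqLocusField σ

lemma mem_realSub {F : Type} [Field F] {σ : F →+* ℂ} {x : F} :
    x ∈ realSub σ ↔ (starRingEnd ℂ) (σ x) = σ x := Iff.rfl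

lemma eq_or_eq {F : Type} [Field F] {σ φ : F →+* ℂ} {s : F ≃+* F}
    (hs : ∀ x, σ (s x) = (starRingEnd ℂ) (σ x))
    (h : φ.comp (realSub σ).subtype = σ.comp (realSub σ).subtype) :
    φ = σ ∨ φ = ComplexEmbedding.conjugate σ := by
  have hs2 : ∀ x, s (s x) = x := by
    intro x
    apply σ.injective
    rw [hs, hs, Complex.conj_conj]
  have h0 : ∀ x, s x = x → φ x = σ x := fun x hx =>
    congrArg (fun g : realSub σ →+* ℂ => g ⟨x, by rw [mem_realSub, ← hs, hx]⟩) h
  have h1 : ∀ x, φ x = σ x ∨ φ x = (starRingEnd ℂ) (σ x) := by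
    intro x
    rw [← hs]
    have h2 : φ (x + s x) = σ (x + s x) := h0 _ (by rw [map_add, hs2, add_comm])
    have h3 : φ (x * s x) = σ (x * s x) := h0 _ (by rw [map_mul, hs2, mul_comm])
    rw [map_add, map_add] at h2
    rw [map_mul, map_mul] at h3
    have h4 : (φ x - σ x) * (φ x - σ (s x)) = 0 := by
      have h5 : φ (s x) = σ x + σ (s x) - φ x := by rw [← h2]; ring
      rw [h5] at h3
      linear_combination -h3
    rcases mul_eq_zero.1 h4 with h5 | h5
    · exact Or.inl (sub_eq_zero.1 h5)
    · exact Or.inr (sub_eq_zero.1 h5)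
  by_contra hcon
  push Not at hcon
  obtain ⟨h2, h3⟩ := hcon
  obtain ⟨a, ha⟩ : ∃ a, φ a ≠ σ a := by
    by_contra h4
    push Not at h4
    exact h2 (RingHom.ext h4)
  obtain ⟨b, hb⟩ : ∃ b, φ b ≠ (starRingEnd ℂ) (σ b) := by
    by_contra h4
    push Not at h4
    exact h3 (RingHom.ext h4)
  have ha' := (h1 a).resolve_left ha
  have hb' := (h1 b).resolve_right hb
  rcases h1 (a + b) with h4 | h4
  · rw [map_add, map_add, hb'] at h4
    exact ha (add_right_cancel h4)
  · rw [map_add, map_add, map_add, ha'] at h4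
    exact hb (add_left_cancel h4)

theorem span_real {n : ℕ} (hn : Odd n) {F : Type} [Field F] [NumberField F]
    (hreal : ∀ σ : F →+* ℂ, ¬ ComplexEmbedding.IsReal σ)
    (hs : ∀ σ : F →+* ℂ, ∃ s : F ≃+* F, ∀ x, σ (s x) = (starRingEnd ℂ) (σ x))
    {x : (F →+* ℂ) → ℝ} (hx : x ∈ par n F) :
    x ∈ Submodule.span ℝ {z | ∃ σ : F →+* ℂ, ∃ x' ∈ par n (realSub σ),
      z = pull (realSub σ).subtype x'} := by
  classical
  let z : (F →+* ℂ) → (F →+* ℂ) → ℝ := fun σ =>
    pull (realSub σ).subtype fun ρ => if ρ = σ.comp (realSub σ).subtype then 1 else 0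
  have hz : ∀ σ φ : F →+* ℂ, z σ φ = if φ = σ ∨ φ = ComplexEmbedding.conjugate σ then 1 else 0 := by
    intro σ φ
    show (if φ.comp (realSub σ).subtype = σ.comp (realSub σ).subtype then (1 : ℝ) else 0) = _
    congr 1
    apply propext
    constructor
    · intro h
      obtain ⟨s, hs'⟩ := hs σ
      exact eq_or_eq hs' h
    · rintro (h | h)
      · rw [h]
      · rw [h]
        ext y
        exact y.2
  have hsum : x = ∑ σ, (x σ / 2) • z σ := by
    funext φ
    rw [Finset.sum_apply]
    have h1 : ∀ σ : F →+* ℂ, ((x σ / 2) • z σ) φ =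
        (if σ = φ then x σ / 2 else 0) + (if σ = ComplexEmbedding.conjugate φ then x σ / 2 else 0) := by
      intro σ
      show x σ / 2 * z σ φ = _
      rw [hz]
      have hne : φ ≠ ComplexEmbedding.conjugate φ := fun h => hreal φ h.symm
      by_cases h2 : σ = φ
      · subst h2
        rw [if_pos (Or.inl rfl), if_pos rfl, if_neg hne]
        ring
      · by_cases h3 : σ = ComplexEmbedding.conjugate φ
        · have h4 : φ = ComplexEmbedding.conjugate σ := by
            rw [h3]
            exact (star_star φ).symm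
          rw [if_pos (Or.inr h4), if_neg h2, if_pos h3]
          ring
        · have h4 : ¬ (φ = σ ∨ φ = ComplexEmbedding.conjugate σ) := by
            rintro (h | h)
            · exact h2 h.symm
            · apply h3
              rw [h]
              exact (star_star σ).symm
          rw [if_neg h4, if_neg h2, if_neg h3]
          ring
    rw [Finset.sum_congr rfl fun σ _ => h1 σ, Finset.sum_add_distrib, Finset.sum_ite_eq',
      Finset.sum_ite_eq', if_pos (Finset.mem_univ _), if_pos (Finset.mem_univ _), hx φ,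
      (Nat.Odd.sub_odd hn odd_one).neg_one_pow]
    ring
  rw [hsum]
  refine Submodule.sum_mem _ fun σ _ => Submodule.smul_mem _ _ (Submodule.subset_span
    ⟨σ, fun ρ => if ρ = σ.comp (realSub σ).subtype then 1 else 0, ?_, rfl⟩)
  intro ρ
  rw [(Nat.Odd.sub_odd hn odd_one).neg_one_pow, one_mul]
  have h1 : ComplexEmbedding.conjugate (σ.comp (realSub σ).subtype) =
      σ.comp (realSub σ).subtype := by
    ext y
    exact y.2
  have h3 : ComplexEmbedding.conjugate ρ = σ.comp (realSub σ).subtype ↔
      ρ = σ.comp (realSub σ).subtype := by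
    constructor
    · intro h
      have h2 := congrArg ComplexEmbedding.conjugate h
      rw [h1] at h2
      rw [← h2]
      exact (star_star ρ).symm
    · intro h
      rw [h, h1]
  exact if_congr h3 rfl rfl

lemma realSub_ne_top {F : Type} [Field F] {σ : F →+* ℂ} (h : ¬ ComplexEmbedding.IsReal σ) :
    realSub σ ≠ ⊤ := by
  intro h1
  apply h
  ext x
  have h2 : x ∈ realSub σ := by
    rw [h1]
    exact Subfield.mem_top x
  exact h2

theorem not_primitive_of_real {n : ℕ} (hn : Odd n) {F : Type} [Field F] [NumberField F]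
    (hreal : ∀ σ : F →+* ℂ, ¬ ComplexEmbedding.IsReal σ)
    (hs : ∀ σ : F →+* ℂ, ∃ s : F ≃+* F, ∀ x, σ (s x) = (starRingEnd ℂ) (σ x)) :
    ¬ Primitive n F := by
  unfold Primitive
  rw [not_not]
  intro x hx
  refine Submodule.span_mono ?_ (span_real hn hreal hs hx)
  rintro z ⟨σ, x', hx', rfl⟩
  exact ⟨realSub σ, realSub_ne_top (hreal σ), x', hx', rfl⟩

end Q112ZG
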