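import Mathlib
import Pool.Agent.Q112.ZG.Main

/-!
# Fields with two commuting automorphisms of prime order
-/

set_option autoImplicit false

open NumberField Module

namespace Q112ZG

variable {F : Type} [Field F]

/-- The field of the elements fixed by `g`. -/
def fixed (g : RingAut F) : Subfield F := g.toRingHom.eqLocusField (RingHom.id F)

lemma mem_fixed {g : RingAut F} {x : F} : x ∈ fixed g ↔ g x = x := Iff.rfl

lemma fixed_ne_top {g : RingAut F} (hg : g ≠ 1) : fixed g ≠ ⊤ := by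
  intro h
  apply hg
  ext x
  have h1 : x ∈ fixed g := by
    rw [h]
    exact Subfield.mem_top x
  exact h1

/-- The embedding `σ ∘ g`. -/
def tw (σ : F →+* ℂ) (g : RingAut F) : F →+* ℂ := σ.comp g.toRingHom

lemma tw_mul (σ : F →+* ℂ) (g h : RingAut F) : tw σ (g * h) = tw (tw σ g) h := rfl

lemma tw_one (σ : F →+* ℂ) : tw σ 1 = σ := rfl

lemma tw_conj (σ : F →+* ℂ) (g : RingAut F) :
    tw (ComplexEmbedding.conjugate σ) g = ComplexEmbedding.conjugate (tw σ g) := rfl

lemma exists_pow [CharZero F] {g : RingAut F} {m : ℕ} (hm : g ^ m = 1) (hm0 : m ≠ 0) {σ φ : F →+* ℂ}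
    (h : φ.comp (fixed g).subtype = σ.comp (fixed g).subtype) : ∃ k : ℕ, φ = tw σ (g ^ k) := by
  classical
  have h0 : ∀ x, g x = x → φ x = σ x := fun x hx =>
    congrArg (fun f : fixed g →+* ℂ => f ⟨x, hx⟩) h
  -- the polynomial
  have h1 : ∀ x, ∃ k : Fin m, φ x = σ ((g ^ (k : ℕ)) x) := by
    intro x
    let P : Polynomial F := ∏ k ∈ Finset.range m, (Polynomial.X - Polynomial.C ((g ^ k) x))
    have hP : P.map g.toRingHom = P := by
      have h2 : P.map g.toRingHom =
          ∏ k ∈ Finset.range m, (Polynomial.X - Polynomial.C ((g ^ (k + 1)) x)) := by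
        rw [Polynomial.map_prod]
        refine Finset.prod_congr rfl fun k _ => ?_
        rw [Polynomial.map_sub, Polynomial.map_X, Polynomial.map_C]
        congr 2
        rw [pow_succ']
        rfl
      rw [h2]
      obtain ⟨m', rfl⟩ := Nat.exists_eq_succ_of_ne_zero hm0
      have h3 : (∏ k ∈ Finset.range (m' + 1), (Polynomial.X - Polynomial.C ((g ^ (k + 1)) x))) =
          (∏ k ∈ Finset.range m', (Polynomial.X - Polynomial.C ((g ^ (k + 1)) x))) *
            (Polynomial.X - Polynomial.C ((g ^ (m' + 1)) x)) := Finset.prod_range_succ _ _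
      have h4 : P = (∏ k ∈ Finset.range m', (Polynomial.X - Polynomial.C ((g ^ (k + 1)) x))) *
          (Polynomial.X - Polynomial.C ((g ^ 0) x)) := Finset.prod_range_succ' _ _
      have hm' : g ^ (m' + 1) = 1 := hm
      rw [h3, h4, hm', pow_zero]
    have hcoeff : P.map φ = P.map σ := by
      ext i
      rw [Polynomial.coeff_map, Polynomial.coeff_map]
      apply h0
      have h2 := congrArg (fun q => Polynomial.coeff q i) hP
      simp only [Polynomial.coeff_map] at h2
      exact h2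
    have hroot : (P.map σ).eval (φ x) = 0 := by
      rw [← hcoeff, Polynomial.eval_map_apply]
      have h2 : P.eval x = 0 := by
        rw [Polynomial.eval_prod]
        refine Finset.prod_eq_zero (Finset.mem_range.2 (Nat.pos_of_ne_zero hm0)) ?_
        rw [pow_zero, Polynomial.eval_sub, Polynomial.eval_X, Polynomial.eval_C]
        exact sub_self x
      rw [h2, map_zero]
    rw [Polynomial.map_prod, Polynomial.eval_prod] at hroot
    obtain ⟨k, hk, hk0⟩ := Finset.prod_eq_zero_iff.1 hroot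
    rw [Polynomial.map_sub, Polynomial.map_X, Polynomial.map_C, Polynomial.eval_sub,
      Polynomial.eval_X, Polynomial.eval_C] at hk0
    exact ⟨⟨k, Finset.mem_range.1 hk⟩, sub_eq_zero.1 hk0⟩
  -- the union of subspaces
  let p : Fin m → Submodule ℚ F := fun k =>
    { carrier := {x | φ x = σ ((g ^ (k : ℕ)) x)}
      zero_mem' := by
        show φ 0 = σ ((g ^ (k : ℕ)) 0)
        rw [map_zero, map_zero, map_zero]
      add_mem' := fun {x y} hx hy => by
        show φ (x + y) = σ ((g ^ (k : ℕ)) (x + y))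
        rw [map_add, map_add, map_add, show φ x = _ from hx, show φ y = _ from hy]
      smul_mem' := fun c x hx => by
        show φ (c • x) = σ ((g ^ (k : ℕ)) (c • x))
        rw [Rat.smul_def, map_mul, map_mul, map_mul, show φ x = _ from hx, map_ratCast,
          map_ratCast, map_ratCast] }
  have hcov : ⋃ k, (p k : Set F) = Set.univ := by
    refine Set.eq_univ_of_forall fun x => ?_
    obtain ⟨k, hk⟩ := h1 x
    exact Set.mem_iUnion.2 ⟨k, hk⟩
  obtain ⟨k, hk⟩ := Subspace.exists_eq_top_of_iUnion_eq_univ hcov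
  refine ⟨k, RingHom.ext fun x => ?_⟩
  have h2 : x ∈ p k := by
    rw [hk]
    exact Submodule.mem_top
  exact h2

lemma exists_extension [NumberField F] (E : Subfield F) (ρ : E →+* ℂ) :
    ∃ σ : F →+* ℂ, σ.comp E.subtype = ρ := by
  have := numberField_subfield E
  letI : Algebra E ℂ := ρ.toAlgebra
  have : Algebra.IsAlgebraic E F := Algebra.IsAlgebraic.tower_top (K := ℚ) E
  let f : F →ₐ[E] ℂ := IsAlgClosed.lift
  refine ⟨f.toRingHom, RingHom.ext fun x => ?_⟩
  exact f.commutes x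

/-- Functions on the embeddings which are invariant under `g` come from the fixed field of `g`. -/
lemma eq_pull [NumberField F] {n : ℕ} {g : RingAut F} {m : ℕ} (hm : g ^ m = 1) (hm0 : m ≠ 0)
    {x : (F →+* ℂ) → ℝ} (hx : x ∈ par n F) (hg : ∀ σ, x (tw σ g) = x σ) :
    ∃ x' ∈ par n (fixed g), x = pull (fixed g).subtype x' := by
  have hpow : ∀ (k : ℕ) (σ : F →+* ℂ), x (tw σ (g ^ k)) = x σ := by
    intro k
    induction k with
    | zero => intro σ; rw [pow_zero, tw_one]
    | succ k ih => intro σ; rw [pow_succ, tw_mul, hg, ih]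
  have hinv : ∀ σ φ : F →+* ℂ, φ.comp (fixed g).subtype = σ.comp (fixed g).subtype → x φ = x σ := by
    intro σ φ h
    obtain ⟨k, hk⟩ := exists_pow hm hm0 h
    rw [hk, hpow]
  choose e he using exists_extension (fixed g)
  refine ⟨fun ρ => x (e ρ), ?_, ?_⟩
  · intro ρ
    show x (e _) = _ * x (e ρ)
    rw [← hx (e ρ)]
    apply hinv
    rw [he]
    conv_lhs => rw [← he ρ]
    rfl
  · funext σ
    show x σ = x (e _)
    apply hinv
    rw [he]

theorem not_primitive_of_aut [NumberField F] {n p : ℕ} (hp : p.Prime) {a b : RingAut F}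
    (ha : a ^ p = 1) (hb : b ^ p = 1) (hab : a * b = b * a) (ha1 : a ≠ 1)
    (hba : ∀ k : ℕ, b ≠ a ^ k) : ¬ Primitive n F := by
  classical
  have : Fact p.Prime := ⟨hp⟩
  unfold Primitive
  rw [not_not]
  intro x hx
  have hp0 : p ≠ 0 := hp.ne_zero
  have hval : ∀ (g : RingAut F), g ^ p = 1 → ∀ j : ZMod p, g ^ (j + 1).val = g ^ (j.val + 1) := by
    intro g hg j
    rw [ZMod.val_add, ZMod.val_one, ← pow_eq_pow_mod _ hg]
  -- the first summands
  let y : ZMod p → (F →+* ℂ) → ℝ := fun i σ => ∑ j : ZMod p, x (tw σ ((a ^ i.val * b) ^ j.val))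
  let w : (F →+* ℂ) → ℝ := fun σ =>
    ∑ j ∈ Finset.univ.erase (0 : ZMod p), ∑ i : ZMod p, x (tw σ (a ^ i.val * b ^ j.val))
  have hc : ∀ i : ZMod p, (a ^ i.val * b) ^ p = 1 := by
    intro i
    have h1 : Commute (a ^ i.val) b := Commute.pow_left hab _
    rw [h1.mul_pow, hb, mul_one, ← pow_mul, mul_comm, pow_mul, ha, one_pow]
  have hypar : ∀ i, y i ∈ par n F := by
    intro i σ
    show ∑ j : ZMod p, x (tw (ComplexEmbedding.conjugate σ) ((a ^ i.val * b) ^ j.val)) = _ *
      ∑ j : ZMod p, x (tw σ ((a ^ i.val * b) ^ j.val))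
    rw [Finset.mul_sum]
    refine Finset.sum_congr rfl fun j _ => ?_
    rw [tw_conj, hx]
  have hwpar : w ∈ par n F := by
    intro σ
    show ∑ j ∈ Finset.univ.erase (0 : ZMod p), ∑ i : ZMod p,
      x (tw (ComplexEmbedding.conjugate σ) (a ^ i.val * b ^ j.val)) = _ *
      ∑ j ∈ Finset.univ.erase (0 : ZMod p), ∑ i : ZMod p, x (tw σ (a ^ i.val * b ^ j.val))
    rw [Finset.mul_sum]
    refine Finset.sum_congr rfl fun j _ => ?_
    rw [Finset.mul_sum]
    refine Finset.sum_congr rfl fun i _ => ?_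
    rw [tw_conj, hx]
  have hyinv : ∀ i σ, y i (tw σ (a ^ i.val * b)) = y i σ := by
    intro i σ
    show ∑ j : ZMod p, x (tw (tw σ (a ^ i.val * b)) ((a ^ i.val * b) ^ j.val)) =
      ∑ j : ZMod p, x (tw σ ((a ^ i.val * b) ^ j.val))
    rw [← Equiv.sum_comp (Equiv.addRight (1 : ZMod p))
      fun j : ZMod p => x (tw σ ((a ^ i.val * b) ^ j.val))]
    refine Finset.sum_congr rfl fun j _ => ?_
    rw [← tw_mul, Equiv.coe_addRight, hval _ (hc i), pow_succ']
  have hwinv : ∀ σ, w (tw σ a) = w σ := by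
    intro σ
    show ∑ j ∈ Finset.univ.erase (0 : ZMod p), ∑ i : ZMod p,
      x (tw (tw σ a) (a ^ i.val * b ^ j.val)) =
      ∑ j ∈ Finset.univ.erase (0 : ZMod p), ∑ i : ZMod p, x (tw σ (a ^ i.val * b ^ j.val))
    refine Finset.sum_congr rfl fun j _ => ?_
    rw [← Equiv.sum_comp (Equiv.addRight (1 : ZMod p)) fun i : ZMod p => x (tw σ (a ^ i.val * b ^ j.val))]
    refine Finset.sum_congr rfl fun i _ => ?_
    rw [← tw_mul, Equiv.coe_addRight, hval _ ha, pow_succ', mul_assoc]
  -- the norm relation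
  have hrel : ∀ σ, (p : ℝ) * x σ = (∑ i, y i σ) - w σ := by
    intro σ
    have h1 : ∑ i, y i σ = ∑ j : ZMod p, ∑ i : ZMod p, x (tw σ (a ^ (i.val * j.val) * b ^ j.val)) := by
      show ∑ i : ZMod p, ∑ j : ZMod p, x (tw σ ((a ^ i.val * b) ^ j.val)) = _
      rw [Finset.sum_comm]
      refine Finset.sum_congr rfl fun j _ => Finset.sum_congr rfl fun i _ => ?_
      have h2 : Commute (a ^ i.val) b := Commute.pow_left hab _
      rw [h2.mul_pow, ← pow_mul]
    rw [h1, ← Finset.add_sum_erase _ _ (Finset.mem_univ (0 : ZMod p))]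
    have h3 : ∑ i : ZMod p, x (tw σ (a ^ (i.val * (0 : ZMod p).val) * b ^ (0 : ZMod p).val)) =
        (p : ℝ) * x σ := by
      rw [ZMod.val_zero]
      simp [tw_one, ZMod.card]
    have h4 : ∀ j ∈ Finset.univ.erase (0 : ZMod p),
        ∑ i : ZMod p, x (tw σ (a ^ (i.val * j.val) * b ^ j.val)) =
        ∑ i : ZMod p, x (tw σ (a ^ i.val * b ^ j.val)) := by
      intro j hj
      have hj0 : j ≠ 0 := (Finset.mem_erase.1 hj).1
      rw [← Equiv.sum_comp (Equiv.mulRight₀ j hj0) fun i : ZMod p => x (tw σ (a ^ i.val * b ^ j.val))]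
      refine Finset.sum_congr rfl fun i _ => ?_
      show _ = x (tw σ (a ^ (i * j).val * b ^ j.val))
      rw [ZMod.val_mul, ← pow_eq_pow_mod _ ha]
    rw [h3, Finset.sum_congr rfl h4]
    show _ = (p : ℝ) * x σ + w σ - w σ
    ring
  have hxeq : x = (p : ℝ)⁻¹ • ((∑ i, y i) - w) := by
    funext σ
    have h1 := hrel σ
    have h2 : (p : ℝ) ≠ 0 := by exact_mod_cast hp0
    simp only [Pi.smul_apply, Pi.sub_apply, Finset.sum_apply, smul_eq_mul]
    rw [← h1]
    field_simp
  rw [hxeq]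
  refine Submodule.smul_mem _ _ (Submodule.sub_mem _ (Submodule.sum_mem _ fun i _ => ?_) ?_)
  · obtain ⟨x', hx', h⟩ := eq_pull (hc i) hp0 (hypar i) (hyinv i)
    refine Submodule.subset_span ⟨fixed (a ^ i.val * b), fixed_ne_top ?_, x', hx', h⟩
    intro h1
    apply hba (i.val * (p - 1))
    have h2 : b = (a ^ i.val)⁻¹ := eq_inv_of_mul_eq_one_right h1
    have h3 : (a ^ i.val)⁻¹ = (a ^ i.val) ^ (p - 1) := by
      symm
      apply eq_inv_of_mul_eq_one_left
      rw [← pow_succ, Nat.sub_add_cancel hp.one_le, ← pow_mul, mul_comm, pow_mul, ha, one_pow]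
    rw [h2, h3, pow_mul]
  · obtain ⟨x', hx', h⟩ := eq_pull ha hp0 hwpar hwinv
    exact Submodule.subset_span ⟨fixed a, fixed_ne_top ha1, x', hx', h⟩

end Q112ZG
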