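import Mathlib
import Pool.Agent.Q112.ZG.Aut

/-!
# Norm relations
-/

set_option autoImplicit false

open NumberField Module

namespace Q112ZG

variable {F : Type} [Field F]

/-- The norm element `∑_{k < ord g} g^k` of the group ring of the automorphism group. -/
noncomputable def normElt (g : RingAut F) : MonoidAlgebra ℚ (RingAut F) :=
  ∑ k ∈ Finset.range (orderOf g), MonoidAlgebra.of ℚ (RingAut F) (g ^ k)

/-- The automorphism group of `F` has a norm relation: in the group ring over `ℚ`, the unit element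
is a combination of the elements `u N_g v` with `g ≠ 1`. -/
def HasNormRelation (F : Type) [Field F] : Prop :=
  ∃ (m : ℕ) (c : Fin m → ℚ) (u g v : Fin m → RingAut F),
    (∀ i, g i ≠ 1) ∧
    (1 : MonoidAlgebra ℚ (RingAut F)) = ∑ i, c i •
      (MonoidAlgebra.of ℚ (RingAut F) (u i) * normElt (g i) * MonoidAlgebra.of ℚ (RingAut F) (v i))

/-- The action of the automorphisms on the functions on the embeddings. -/
noncomputable def actHom (F : Type) [Field F] : RingAut F →* Module.End ℚ ((F →+* ℂ) → ℝ) where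
  toFun g := LinearMap.funLeft ℚ ℝ (fun σ : F →+* ℂ => tw σ g)
  map_one' := rfl
  map_mul' _ _ := rfl

lemma actHom_apply (g : RingAut F) (x : (F →+* ℂ) → ℝ) (σ : F →+* ℂ) :
    actHom F g x σ = x (tw σ g) := rfl

lemma act_par {n : ℕ} (g : RingAut F) {x : (F →+* ℂ) → ℝ} (hx : x ∈ par n F) :
    actHom F g x ∈ par n F := by
  intro σ
  rw [actHom_apply, actHom_apply, tw_conj, hx]

lemma finOrder [NumberField F] (g : RingAut F) : IsOfFinOrder g := by
  let f : RingAut F → (F →+* ℂ) → (F →+* ℂ) := fun g σ => tw σ g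
  have hf : Function.Injective f := by
    intro g h hgh
    obtain ⟨σ⟩ : Nonempty (F →+* ℂ) := inferInstance
    have h1 : tw σ g = tw σ h := congrFun hgh σ
    ext x
    exact σ.injective (congrArg (fun q : F →+* ℂ => q x) h1)
  have : Finite (RingAut F) := Finite.of_injective f hf
  exact isOfFinOrder_of_finite g

theorem not_primitive_of_norm [NumberField F] {n : ℕ} (h : HasNormRelation F) :
    ¬ Primitive n F := by
  obtain ⟨m, c, u, g, v, hg1, hrel⟩ := h
  have hg : ∀ i, g i ≠ 1 ∧ IsOfFinOrder (g i) := fun i => ⟨hg1 i, finOrder (g i)⟩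
  unfold Primitive
  rw [not_not]
  intro x hx
  let A : MonoidAlgebra ℚ (RingAut F) →ₐ[ℚ] Module.End ℚ ((F →+* ℂ) → ℝ) :=
    MonoidAlgebra.lift ℚ _ (RingAut F) (actHom F)
  have hA : ∀ k : RingAut F, A (MonoidAlgebra.of ℚ (RingAut F) k) = actHom F k := fun k =>
    MonoidAlgebra.lift_of _ _
  let z : Fin m → (F →+* ℂ) → ℝ := fun i =>
    ∑ k ∈ Finset.range (orderOf (g i)), actHom F (g i ^ k) (actHom F (v i) x)
  let y : Fin m → (F →+* ℂ) → ℝ := fun i => actHom F (u i) (z i)
  have hxy : x = ∑ i, (c i : ℝ) • y i := by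
    have h1 := congrArg (fun a => A a x) hrel
    simp only [map_one, Module.End.one_apply, map_sum, map_smul, map_mul, hA, normElt,
      LinearMap.sum_apply, LinearMap.smul_apply, Module.End.mul_apply] at h1
    conv_lhs => rw [h1]
    refine Finset.sum_congr rfl fun i _ => ?_
    funext σ
    simp only [y, z, map_sum, Pi.smul_apply, Finset.sum_apply, smul_eq_mul, Rat.smul_def]
  have hzpar : ∀ i, z i ∈ par n F := fun i =>
    Submodule.sum_mem _ fun k _ => act_par _ (act_par _ hx)
  have hzinv : ∀ i σ, z i (tw σ (g i)) = z i σ := by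
    intro i σ
    show (∑ k ∈ Finset.range (orderOf (g i)), actHom F (g i ^ k) (actHom F (v i) x)) (tw σ (g i)) =
      (∑ k ∈ Finset.range (orderOf (g i)), actHom F (g i ^ k) (actHom F (v i) x)) σ
    rw [Finset.sum_apply, Finset.sum_apply]
    have h1 : ∀ k : ℕ, actHom F (g i ^ k) (actHom F (v i) x) (tw σ (g i)) =
        actHom F (g i ^ (k + 1)) (actHom F (v i) x) σ := by
      intro k
      rw [actHom_apply, actHom_apply _ _ σ, pow_succ', tw_mul]
    rw [Finset.sum_congr rfl fun k _ => h1 k]
    have h2 : 0 < orderOf (g i) := (hg i).2.orderOf_pos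
    obtain ⟨d, hd⟩ := Nat.exists_eq_succ_of_ne_zero h2.ne'
    rw [hd, Finset.sum_range_succ, Finset.sum_range_succ']
    have h3 : g i ^ (d + 1) = 1 := by
      rw [← Nat.succ_eq_add_one, ← hd]
      exact pow_orderOf_eq_one (g i)
    rw [h3, pow_zero]
  rw [hxy]
  refine Submodule.sum_mem _ fun i _ => Submodule.smul_mem _ _ ?_
  have hconj : (u i * g i * (u i)⁻¹) ^ orderOf (g i) = 1 := by
    rw [conj_pow, pow_orderOf_eq_one, mul_one, mul_inv_cancel]
  obtain ⟨x', hx', h1⟩ := eq_pull hconj (hg i).2.orderOf_pos.ne' (act_par (u i) (hzpar i))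
    (fun σ => by
      rw [actHom_apply, actHom_apply _ _ σ, ← tw_mul]
      have h2 : u i * g i * (u i)⁻¹ * u i = u i * g i := by
        rw [mul_assoc, inv_mul_cancel, mul_one]
      rw [h2, tw_mul, hzinv])
  refine Submodule.subset_span ⟨fixed (u i * g i * (u i)⁻¹), fixed_ne_top ?_, x', hx', h1⟩
  intro h2
  apply (hg i).1
  have h3 : u i * g i = u i := by
    rw [mul_inv_eq_one] at h2
    exact h2
  exact mul_eq_left.1 h3

end Q112ZG
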