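import Mathlib

/-!
# The groups `B_n(F)` of Goncharov, the maps `δ_n` and the polylogarithms
-/

set_option autoImplicit false

open scoped TensorProduct

namespace Q112ZG

/-- The free abelian group on the points of the projective line over `K`; the point `∞` is `none`. -/
abbrev Z (K : Type) : Type := FreeAbelianGroup (Option K)

/-- The value at `t = a` of a point of the projective line over `K(t)`. -/
noncomputable def value {K : Type} [Field K] (a : K) : Option (RatFunc K) → Option K
  | none => none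
  | some f => open Classical in if f.denom.eval a = 0 then none else some (f.num.eval a / f.denom.eval a)

/-- The exterior square of the multiplicative group. -/
def Wedge (K : Type) [Field K] : Type :=
  (Additive Kˣ ⊗[ℤ] Additive Kˣ) ⧸
    AddSubgroup.closure (Set.range fun a : Additive Kˣ => a ⊗ₜ[ℤ] a)

noncomputable instance (K : Type) [Field K] : AddCommGroup (Wedge K) :=
  QuotientAddGroup.Quotient.addCommGroup _

/-- `u ∧ v`. -/
def wedge {K : Type} [Field K] (u v : Kˣ) : Wedge K :=
  QuotientAddGroup.mk (Additive.ofMul u ⊗ₜ[ℤ] Additive.ofMul v)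

open Classical in
/-- `δ_2`: `{x} ↦ (1 - x) ∧ x`, and `{0}, {1}, {∞} ↦ 0`. -/
noncomputable def delta2 (K : Type) [Field K] : Option K → Wedge K
  | none => 0
  | some x => if h : x ≠ 0 ∧ 1 - x ≠ 0 then wedge (Units.mk0 (1 - x) h.2) (Units.mk0 x h.1) else 0

/-- The kernel of `δ_2` in `ℤ[P¹_K]`. -/
def ker2 (K : Type) [Field K] : Set (Z K) := {y | FreeAbelianGroup.lift (delta2 K) y = 0}

/-- The group `(ℤ[P¹_K] / R) ⊗ K^*`. -/
def BTensor (K : Type) [Field K] (R : AddSubgroup (Z K)) : Type := (Z K ⧸ R) ⊗[ℤ] Additive Kˣ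

noncomputable instance (K : Type) [Field K] (R : AddSubgroup (Z K)) : AddCommGroup (BTensor K R) :=
  TensorProduct.addCommGroup

/-- `{x} ⊗ u`. -/
def btensor {K : Type} [Field K] (R : AddSubgroup (Z K)) (x : K) (u : Kˣ) : BTensor K R :=
  (QuotientAddGroup.mk (FreeAbelianGroup.of (some x)) : Z K ⧸ R) ⊗ₜ[ℤ] Additive.ofMul u

open Classical in
/-- `δ_n` for `n ≥ 3`, `R` being the group of relations for `n - 1`: `{x} ↦ {x}_{n-1} ⊗ x`, and
`{0}, {1}, {∞} ↦ 0`. -/
noncomputable def deltaN (K : Type) [Field K] (R : AddSubgroup (Z K)) : Option K → BTensor K R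
  | none => 0
  | some x => if h : x ≠ 0 ∧ 1 - x ≠ 0 then btensor R x (Units.mk0 x h.1) else 0

/-- The kernel of `δ_n` in `ℤ[P¹_K]`, `R` being the group of relations for `n - 1`. -/
def kerN (K : Type) [Field K] (R : AddSubgroup (Z K)) : Set (Z K) :=
  {y | FreeAbelianGroup.lift (deltaN K R) y = 0}

/-- The relations given by a subset `A` (the kernel of `δ_n`) of `ℤ[P¹_{K(t)}]`: they are generated
by `{0}`, `{∞}` and the elements `α(0) - α(1)`, `α ∈ A`. -/
noncomputable def relOf (K : Type) [Field K] (A : Set (Z (RatFunc K))) : AddSubgroup (Z K) :=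
  AddSubgroup.closure ({FreeAbelianGroup.of none, FreeAbelianGroup.of (some 0)} ∪
    {z | ∃ α ∈ A, z = FreeAbelianGroup.map (value (0 : K)) α - FreeAbelianGroup.map (value (1 : K)) α})

/-- A family of groups of relations, one for each field. -/
abbrev Relations : Type 1 := ∀ (K : Type) [Field K], AddSubgroup (Z K)

/-- The groups `R_2(K)`. -/
noncomputable def rel2 : Relations := fun K _ => relOf K (ker2 (RatFunc K))

/-- The groups `R_n(K)`, given the groups `R_{n-1}(K)`. -/
noncomputable def nextRel (R : Relations) : Relations :=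
  fun K _ => relOf K (kerN (RatFunc K) (R (RatFunc K)))

/-- The groups `R_n(K)` of relations, for `n ≥ 2`. -/
noncomputable def rel (n : ℕ) : Relations := nextRel^[n - 2] rel2

/-- The kernel of `δ_n` in `ℤ[P¹_K]`, for `n ≥ 2`. -/
noncomputable def kerDelta (n : ℕ) (K : Type) [Field K] : Set (Z K) :=
  if n = 2 then ker2 K else kerN K (rel (n - 1) K)

/-! ### Functoriality -/

/-- The map on `ℤ[P¹]` given by a homomorphism of fields. -/
noncomputable def mapZ {K L : Type} [Field K] [Field L] (τ : K →+* L) : Z K →+ Z L :=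
  FreeAbelianGroup.map (Option.map τ)

/-- The map on units. -/
noncomputable def mapU {K L : Type} [Field K] [Field L] (τ : K →+* L) :
    Additive Kˣ →ₗ[ℤ] Additive Lˣ :=
  (MonoidHom.toAdditive (Units.map τ.toMonoidHom)).toIntLinearMap

lemma ker_delta2_map {K L : Type} [Field K] [Field L] (τ : K →+* L) {y : Z K}
    (hy : y ∈ ker2 K) : mapZ τ y ∈ ker2 L := by
  classical
  let T : (Additive Kˣ ⊗[ℤ] Additive Kˣ) →+ (Additive Lˣ ⊗[ℤ] Additive Lˣ) :=
    (TensorProduct.map (mapU τ) (mapU τ)).toAddMonoidHom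
  let W : Wedge K →+ Wedge L := QuotientAddGroup.map _ _ T (by
    rw [AddSubgroup.closure_le]
    rintro _ ⟨a, rfl⟩
    exact AddSubgroup.subset_closure ⟨mapU τ a, rfl⟩)
  have hW : ∀ u v : Kˣ, W (wedge u v) = wedge (Units.map τ.toMonoidHom u)
      (Units.map τ.toMonoidHom v) := fun u v => rfl
  have key : (FreeAbelianGroup.lift (delta2 L)).comp (mapZ τ) =
      W.comp (FreeAbelianGroup.lift (delta2 K)) := by
    apply FreeAbelianGroup.lift_ext
    intro p
    rw [AddMonoidHom.comp_apply, AddMonoidHom.comp_apply, mapZ, FreeAbelianGroup.map_of_apply,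
      FreeAbelianGroup.lift_apply_of, FreeAbelianGroup.lift_apply_of]
    rcases p with _ | x
    · exact (map_zero W).symm
    · show (if h : τ x ≠ 0 ∧ 1 - τ x ≠ 0 then _ else _) = W (if h : x ≠ 0 ∧ 1 - x ≠ 0 then _ else _)
      by_cases h : x ≠ 0 ∧ 1 - x ≠ 0
      · have h' : τ x ≠ 0 ∧ 1 - τ x ≠ 0 := by
          refine ⟨(map_ne_zero τ).2 h.1, ?_⟩
          rw [← map_one τ, ← map_sub]
          exact (map_ne_zero τ).2 h.2
        rw [dif_pos h, dif_pos h', hW]
        congr 1
        · ext
          show 1 - τ x = τ (1 - x)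
          rw [map_sub, map_one]
        · ext
          rfl
      · have h' : ¬ (τ x ≠ 0 ∧ 1 - τ x ≠ 0) := by
          rintro ⟨h1, h2⟩
          apply h
          refine ⟨(map_ne_zero τ).1 h1, ?_⟩
          rw [← map_one τ, ← map_sub] at h2
          exact (map_ne_zero τ).1 h2
        rw [dif_neg h, dif_neg h']
        exact (map_zero W).symm
  have h1 := DFunLike.congr_fun key y
  rw [AddMonoidHom.comp_apply, AddMonoidHom.comp_apply, show FreeAbelianGroup.lift (delta2 K) y = 0
    from hy, map_zero] at h1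
  exact h1

lemma ker_deltaN_map {K L : Type} [Field K] [Field L] (τ : K →+* L) {R : AddSubgroup (Z K)}
    {R' : AddSubgroup (Z L)} (hR : R ≤ R'.comap (mapZ τ)) {y : Z K}
    (hy : y ∈ kerN K R) : mapZ τ y ∈ kerN L R' := by
  classical
  let B : (Z K ⧸ R) →+ (Z L ⧸ R') := QuotientAddGroup.map _ _ (mapZ τ) hR
  let T : BTensor K R →+ BTensor L R' :=
    (TensorProduct.map B.toIntLinearMap (mapU τ)).toAddMonoidHom
  have hT : ∀ (x : K) (u : Kˣ), T (btensor R x u) = btensor R' (τ x) (Units.map τ.toMonoidHom u) := by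
    intro x u
    show (TensorProduct.map B.toIntLinearMap (mapU τ))
      ((QuotientAddGroup.mk (FreeAbelianGroup.of (some x)) : Z K ⧸ R) ⊗ₜ[ℤ] Additive.ofMul u) = _
    rw [TensorProduct.map_tmul]
    rfl
  have key : (FreeAbelianGroup.lift (deltaN L R')).comp (mapZ τ) =
      T.comp (FreeAbelianGroup.lift (deltaN K R)) := by
    apply FreeAbelianGroup.lift_ext
    intro p
    rw [AddMonoidHom.comp_apply, AddMonoidHom.comp_apply, mapZ, FreeAbelianGroup.map_of_apply,
      FreeAbelianGroup.lift_apply_of, FreeAbelianGroup.lift_apply_of]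
    rcases p with _ | x
    · exact (map_zero T).symm
    · show (if h : τ x ≠ 0 ∧ 1 - τ x ≠ 0 then _ else _) = T (if h : x ≠ 0 ∧ 1 - x ≠ 0 then _ else _)
      by_cases h : x ≠ 0 ∧ 1 - x ≠ 0
      · have h' : τ x ≠ 0 ∧ 1 - τ x ≠ 0 := by
          refine ⟨(map_ne_zero τ).2 h.1, ?_⟩
          rw [← map_one τ, ← map_sub]
          exact (map_ne_zero τ).2 h.2
        rw [dif_pos h, dif_pos h', hT]
        congr 1
        ext
        rfl
      · have h' : ¬ (τ x ≠ 0 ∧ 1 - τ x ≠ 0) := by
          rintro ⟨h1, h2⟩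
          apply h
          refine ⟨(map_ne_zero τ).1 h1, ?_⟩
          rw [← map_one τ, ← map_sub] at h2
          exact (map_ne_zero τ).1 h2
        rw [dif_neg h, dif_neg h']
        exact (map_zero T).symm
  have h1 := DFunLike.congr_fun key y
  rw [AddMonoidHom.comp_apply, AddMonoidHom.comp_apply, show FreeAbelianGroup.lift (deltaN K R) y = 0
    from hy, map_zero] at h1
  exact h1

/-! #### Rational functions -/

lemma num_denom_of_isCoprime {K : Type} [Field K] {p q : Polynomial K} (h : IsCoprime p q)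
    (hq : q.Monic) : (algebraMap _ (RatFunc K) p / algebraMap _ (RatFunc K) q).num = p ∧
      (algebraMap _ (RatFunc K) p / algebraMap _ (RatFunc K) q).denom = q := by
  classical
  have hg : gcd p q = 1 := by
    have h1 : IsUnit (gcd p q) := h.isUnit_of_dvd' (gcd_dvd_left p q) (gcd_dvd_right p q)
    rw [← normalize_gcd]
    exact normalize_eq_one.2 h1
  rw [RatFunc.num_div, RatFunc.denom_div p hq.ne_zero, hg]
  simp [hq.leadingCoeff]

lemma mapPoly_le {K L : Type} [Field K] [Field L] (τ : K →+* L) :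
    nonZeroDivisors (Polynomial K) ≤ (nonZeroDivisors (Polynomial L)).comap
      (Polynomial.mapRingHom τ) := by
  intro p hp
  have h1 : p ≠ 0 := nonZeroDivisors.ne_zero hp
  refine mem_nonZeroDivisors_of_ne_zero ?_
  show p.map τ ≠ 0
  exact (Polynomial.map_ne_zero_iff τ.injective).2 h1

/-- The map `K(t) → L(t)`. -/
noncomputable def mapR {K L : Type} [Field K] [Field L] (τ : K →+* L) : RatFunc K →+* RatFunc L :=
  RatFunc.mapRingHom (Polynomial.mapRingHom τ) (mapPoly_le τ)

lemma num_denom_map {K L : Type} [Field K] [Field L] (τ : K →+* L) (f : RatFunc K) :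
    (mapR τ f).num = f.num.map τ ∧ (mapR τ f).denom = f.denom.map τ := by
  have h1 : mapR τ f = algebraMap _ (RatFunc L) (f.num.map τ) /
      algebraMap _ (RatFunc L) (f.denom.map τ) := by
    conv_lhs => rw [← RatFunc.num_div_denom f]
    exact RatFunc.map_apply_div (Polynomial.mapRingHom τ) (mapPoly_le τ) _ _
  rw [h1]
  refine num_denom_of_isCoprime ?_ ?_
  · exact (RatFunc.isCoprime_num_denom f).map (Polynomial.mapRingHom τ)
  · exact (RatFunc.monic_denom f).map τ

lemma value_map {K L : Type} [Field K] [Field L] (τ : K →+* L) (a : K) (p : Option (RatFunc K)) :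
    value (τ a) (Option.map (mapR τ) p) = Option.map τ (value a p) := by
  classical
  rcases p with _ | f
  · rfl
  · obtain ⟨h1, h2⟩ := num_denom_map τ f
    show (if (mapR τ f).denom.eval (τ a) = 0 then none else
      some ((mapR τ f).num.eval (τ a) / (mapR τ f).denom.eval (τ a))) =
      Option.map τ (if f.denom.eval a = 0 then none else some (f.num.eval a / f.denom.eval a))
    rw [h1, h2, Polynomial.eval_map_apply, Polynomial.eval_map_apply]
    by_cases h : f.denom.eval a = 0
    · rw [if_pos h, if_pos (by rw [h, map_zero])]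
      rfl
    · rw [if_neg h, if_neg ((map_ne_zero τ).2 h)]
      show some _ = some (τ _)
      rw [map_div₀]

lemma mapZ_value {K L : Type} [Field K] [Field L] (τ : K →+* L) (a : K) (b : L) (hb : τ a = b)
    (α : Z (RatFunc K)) : mapZ τ (FreeAbelianGroup.map (value a) α) =
      FreeAbelianGroup.map (value b) (mapZ (mapR τ) α) := by
  subst hb
  have key : (mapZ τ).comp (FreeAbelianGroup.map (value a)) =
      (FreeAbelianGroup.map (value (τ a))).comp (mapZ (mapR τ)) := by
    apply FreeAbelianGroup.lift_ext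
    intro p
    rw [AddMonoidHom.comp_apply, AddMonoidHom.comp_apply, mapZ, mapZ,
      FreeAbelianGroup.map_of_apply, FreeAbelianGroup.map_of_apply, FreeAbelianGroup.map_of_apply,
      FreeAbelianGroup.map_of_apply, value_map]
  exact DFunLike.congr_fun key α

lemma relOf_map {K L : Type} [Field K] [Field L] (τ : K →+* L) {A : Set (Z (RatFunc K))}
    {A' : Set (Z (RatFunc L))} (hA : ∀ α ∈ A, mapZ (mapR τ) α ∈ A') :
    relOf K A ≤ (relOf L A').comap (mapZ τ) := by
  rw [relOf, AddSubgroup.closure_le]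
  rintro z (hz | ⟨α, hα, rfl⟩)
  · rcases hz with rfl | hz
    · refine AddSubgroup.subset_closure (Or.inl (Or.inl ?_))
      rw [mapZ, FreeAbelianGroup.map_of_apply]
      rfl
    · rw [Set.mem_singleton_iff] at hz
      subst hz
      refine AddSubgroup.subset_closure (Or.inl (Or.inr ?_))
      rw [mapZ, FreeAbelianGroup.map_of_apply]
      show FreeAbelianGroup.of (some (τ 0)) = _
      rw [map_zero]
  · refine AddSubgroup.subset_closure (Or.inr ⟨mapZ (mapR τ) α, hA α hα, ?_⟩)
    rw [map_sub, mapZ_value τ 0 0 (map_zero τ), mapZ_value τ 1 1 (map_one τ)]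

theorem rel_map (m : ℕ) : ∀ {K L : Type} [Field K] [Field L] (τ : K →+* L),
    (nextRel^[m] rel2) K ≤ ((nextRel^[m] rel2) L).comap (mapZ τ) := by
  induction m with
  | zero =>
      intro K L _ _ τ
      exact relOf_map τ fun α hα => ker_delta2_map (mapR τ) hα
  | succ m ih =>
      intro K L _ _ τ
      rw [Function.iterate_succ_apply']
      exact relOf_map τ fun α hα => ker_deltaN_map (mapR τ) (ih (mapR τ)) hα

theorem kerDelta_map (n : ℕ) {K L : Type} [Field K] [Field L] (τ : K →+* L) {y : Z K}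
    (hy : y ∈ kerDelta n K) : mapZ τ y ∈ kerDelta n L := by
  unfold kerDelta at hy ⊢
  by_cases h : n = 2
  · rw [if_pos h] at hy ⊢
    exact ker_delta2_map τ hy
  · rw [if_neg h] at hy ⊢
    exact ker_deltaN_map τ (rel_map _ τ) hy

/-! ### Polylogarithms -/

/-- `Li_m(z)`, by its power series. -/
noncomputable def Li (m : ℕ) (z : ℂ) : ℂ := ∑' j : ℕ, z ^ (j + 1) / ((j : ℂ) + 1) ^ m

/-- `𝓛_n(z)` in the unit disk: the real part (`n` odd) or the imaginary part (`n` even) of
`∑_k β_k log^k|z| Li_{n-k}(z)`, where `β_k = 2^k B_k / k!`. -/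
noncomputable def polylogDisk (n : ℕ) (z : ℂ) : ℝ :=
  let w := ∑ k ∈ Finset.range n, ((2 ^ k * bernoulli k / k.factorial : ℚ) : ℂ) *
    ((Real.log ‖z‖ : ℝ) : ℂ) ^ k * Li (n - k) z
  open Classical in if Odd n then w.re else w.im

/-- `𝓛_n(z)`, with `𝓛_n(z) = (-1)^{n-1} 𝓛_n(1/z)` for `|z| > 1`. -/
noncomputable def polylog (n : ℕ) (z : ℂ) : ℝ :=
  open Classical in if ‖z‖ ≤ 1 then polylogDisk n z else (-1) ^ (n - 1) * polylogDisk n z⁻¹

/-- The vector of the numbers `𝓛_n(σ(y))`, `σ` running over the embeddings of `F` in `ℂ`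
(`𝓛_n(∞) = 0`). -/
noncomputable def polyVec (n : ℕ) {F : Type} [Field F] (y : Z F) : (F →+* ℂ) → ℝ :=
  fun σ => FreeAbelianGroup.lift (fun p : Option F => match p with
    | none => 0
    | some x => polylog n (σ x)) y

/-- The vectors `(𝓛_n(σ(y)))_σ` for `y` in `ker δ_n ⊗ ℚ`. -/
noncomputable def polySpace (n : ℕ) (F : Type) [Field F] : Submodule ℚ ((F →+* ℂ) → ℝ) :=
  Submodule.span ℚ (polyVec n '' kerDelta n F)

lemma polyVec_map (n : ℕ) {E F : Type} [Field E] [Field F] (τ : E →+* F) (y : Z E) (σ : F →+* ℂ) :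
    polyVec n (mapZ τ y) σ = polyVec n y (σ.comp τ) := by
  have key : (FreeAbelianGroup.lift (fun p : Option F => match p with
      | none => (0 : ℝ)
      | some x => polylog n (σ x))).comp (mapZ τ) =
      FreeAbelianGroup.lift (fun p : Option E => match p with
      | none => (0 : ℝ)
      | some x => polylog n ((σ.comp τ) x)) := by
    apply FreeAbelianGroup.lift_ext
    intro p
    rw [AddMonoidHom.comp_apply, mapZ, FreeAbelianGroup.map_of_apply,
      FreeAbelianGroup.lift_apply_of, FreeAbelianGroup.lift_apply_of]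
    rcases p with _ | x <;> rfl
  exact DFunLike.congr_fun key y

theorem polySpace_pull {n : ℕ} {E F : Type} [Field E] [Field F] (τ : E →+* F)
    {x : (E →+* ℂ) → ℝ} (hx : x ∈ polySpace n E) :
    (fun σ : F →+* ℂ => x (σ.comp τ)) ∈ polySpace n F := by
  let f : ((E →+* ℂ) → ℝ) →ₗ[ℚ] ((F →+* ℂ) → ℝ) :=
    LinearMap.funLeft ℚ ℝ (fun σ : F →+* ℂ => σ.comp τ)
  have h1 : f x ∈ Submodule.map f (polySpace n E) := Submodule.mem_map_of_mem hx
  rw [polySpace, Submodule.map_span] at h1
  refine Submodule.span_mono ?_ h1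
  rintro _ ⟨_, ⟨y, hy, rfl⟩, rfl⟩
  refine ⟨mapZ τ y, kerDelta_map n τ hy, ?_⟩
  funext σ
  exact polyVec_map n τ y σ

end Q112ZG
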